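import Pool.Agent.H633.SH.Gen

/-!
# Zero-dimensional analytic spaces are sigma-homogeneous (MP_1f1ec9_gt)

Every zero-dimensional analytic space is the union of countably many homogeneous subspaces, and so is
every analytic space which is the union of countably many zero-dimensional subspaces, for example every
analytic space which embeds into a Euclidean space. This is proved in ZFC, without determinacy.

Idea. Let `A` be an analytic subset of the Cantor space which has uncountably many points in every
cylinder. By the property of Baire, `A` is the union of countably many sets `G`, each closed under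
finite changes inside a cylinder, and of countably many sets `Y = A ∩ L` with `L` closed nowhere
dense. The sets `G` are homogeneous. For `Y`, map the Cantor space into the Boolean group of all sets
of finite binary strings by `x ↦ {prefixes of x}`; the image of `Y` generates a group `W`, and
the closure of the image of `Y` meets `W` only in the image of `Y`. Outside this closure `W` splits
into small clopen pieces, and each is embedded into a copy of the Cantor space inside `A`, outside `L`
and close to the corresponding points of `Y` (the perfect set theorem). These embeddings and the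
identity of `Y` together embed the homogeneous space `W` into `A`, with `Y` in the image. The general
case follows by removing a countable set, and because a zero-dimensional subset of a metrizable space is
contained in a zero-dimensional `Gδ` set.
-/

set_option autoImplicit false

namespace Pool.Agent.Results.MP_1f1ec9_gt.ZeroDimensional

/-- A space is homogeneous if for any two points `x`, `y` some homeomorphism of the space onto itself
maps `x` to `y`. -/
def Homogeneous (Y : Type) [TopologicalSpace Y] : Prop :=
  ∀ x y : Y, ∃ h : Y ≃ₜ Y, h x = y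

/-- A space is sigma-homogeneous if it is the union of countably many homogeneous subspaces. -/
def SigmaHomogeneous (X : Type) [TopologicalSpace X] : Prop :=
  ∃ A : ℕ → Set X, (⋃ n, A n) = Set.univ ∧ ∀ n, Homogeneous (A n)

/-- A space is zero-dimensional if its clopen sets form a basis of the topology. -/
def ZeroDimensional (Y : Type) [TopologicalSpace Y] : Prop :=
  TopologicalSpace.IsTopologicalBasis {U : Set Y | IsClopen U}

/-- a countable family as a sequence -/
lemma sigmaHomogeneous_of_sh {X : Type} [TopologicalSpace X]
    (h : Pool.Agent.H633.SH.SH (Set.univ : Set X)) : SigmaHomogeneous X := by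
  obtain ⟨H, h1, h2, h3⟩ := h
  obtain ⟨f, hf⟩ := (h1.insert ∅).exists_eq_range (Set.insert_nonempty _ _)
  refine ⟨f, ?_, fun n => ?_⟩
  · rw [← Set.sUnion_range, ← hf, Set.sUnion_insert, h3, Set.empty_union]
  · have h4 : f n ∈ insert ∅ H := by
      rw [hf]
      exact Set.mem_range_self n
    rcases h4 with h4 | h4
    · rw [h4]
      exact fun x => x.2.elim
    · exact h2 _ h4

/-- If every coordinate misses a dense set of reals, the space is zero-dimensional. -/
lemma zeroDimensional_of_dense {X : Type} [TopologicalSpace X] {n : ℕ} {e : X → Fin n → ℝ}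
    (he : Topology.IsEmbedding e) (Q : Fin n → Set ℝ) (hQ : ∀ i, Dense (Q i))
    (hXQ : ∀ x i, e x i ∉ Q i) : ZeroDimensional X := by
  refine TopologicalSpace.isTopologicalBasis_of_isOpen_of_nhds (fun U hU => hU.2) ?_
  intro x U hx hU
  obtain ⟨O, hO, rfl⟩ := he.isInducing.isOpen_iff.1 hU
  obtain ⟨ε, hε, hεO⟩ := Metric.isOpen_iff.1 hO (e x) hx
  choose a haQ ha using fun i =>
    (hQ i).exists_between (show e x i - ε < e x i by linarith)
  choose b hbQ hb using fun i =>
    (hQ i).exists_between (show e x i < e x i + ε by linarith)
  have hc : ∀ i, Continuous fun y : X => e y i := fun i => (continuous_apply i).comp he.continuous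
  refine ⟨{y | ∀ i, a i < e y i ∧ e y i < b i}, ⟨?_, ?_⟩, fun i => ⟨(ha i).2, (hb i).1⟩, ?_⟩
  · have h1 : {y : X | ∀ i, a i < e y i ∧ e y i < b i} =
        ⋂ i, ({y | a i ≤ e y i} ∩ {y | e y i ≤ b i}) := by
      ext y
      simp only [Set.mem_ofPred_eq, Set.mem_iInter, Set.mem_inter_iff]
      refine forall_congr' fun i => ⟨fun h => ⟨h.1.le, h.2.le⟩, fun h => ⟨?_, ?_⟩⟩
      · refine lt_of_le_of_ne h.1 fun h' => hXQ y i ?_
        rw [← h']
        exact haQ i
      · refine lt_of_le_of_ne h.2 fun h' => hXQ y i ?_
        rw [h']
        exact hbQ i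
    rw [h1]
    exact isClosed_iInter fun i =>
      (isClosed_le continuous_const (hc i)).inter (isClosed_le (hc i) continuous_const)
  · have h1 : {y : X | ∀ i, a i < e y i ∧ e y i < b i} =
        ⋂ i, ({y | a i < e y i} ∩ {y | e y i < b i}) := by
      ext y
      simp only [Set.mem_ofPred_eq, Set.mem_iInter, Set.mem_inter_iff]
    rw [h1]
    exact isOpen_iInter_of_finite fun i =>
      (isOpen_lt continuous_const (hc i)).inter (isOpen_lt (hc i) continuous_const)
  · intro y hy
    apply hεO
    rw [Metric.mem_ball, dist_pi_lt_iff hε]
    intro i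
    have h1 := hy i
    rw [Real.dist_eq, abs_lt]
    constructor <;> linarith [(ha i).1, (hb i).2]

theorem result :
    (∀ (X : Type) [TopologicalSpace X] [TopologicalSpace.MetrizableSpace X],
      MeasureTheory.AnalyticSet (Set.univ : Set X) → ZeroDimensional X → SigmaHomogeneous X) ∧
    (∀ (X : Type) [TopologicalSpace X] [TopologicalSpace.MetrizableSpace X],
      MeasureTheory.AnalyticSet (Set.univ : Set X) → ∀ Z : ℕ → Set X,
        (∀ n, ZeroDimensional (Z n)) → (⋃ n, Z n) = Set.univ → SigmaHomogeneous X) ∧
    (∀ (X : Type) [TopologicalSpace X] (n : ℕ) (e : X → Fin n → ℝ), Topology.IsEmbedding e →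
      MeasureTheory.AnalyticSet (Set.univ : Set X) → SigmaHomogeneous X) := by
  have key : ∀ (X : Type) [TopologicalSpace X] [TopologicalSpace.MetrizableSpace X],
      MeasureTheory.AnalyticSet (Set.univ : Set X) → ∀ Z : ℕ → Set X,
        (∀ n, ZeroDimensional (Z n)) → (⋃ n, Z n) = Set.univ → SigmaHomogeneous X :=
    fun X _ _ hX Z hZ hU => sigmaHomogeneous_of_sh (Pool.Agent.H633.SH.sh_iUnion hX hZ hU)
  refine ⟨?_, key, ?_⟩
  · intro X _ _ hX hz
    refine key X hX (fun _ => Set.univ) (fun _ => ?_) (Set.iUnion_const _)
    let e : (Set.univ : Set X) ≃ₜ X := Homeomorph.Set.univ X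
    refine TopologicalSpace.isTopologicalBasis_of_isOpen_of_nhds (fun U hU => hU.2) ?_
    intro x U hx hU
    obtain ⟨V, hV, hxV, hVU⟩ := hz.exists_subset_of_mem_open
      (show e x ∈ e.symm ⁻¹' U by simpa using hx) (hU.preimage e.symm.continuous)
    refine ⟨e ⁻¹' V, IsClopen.preimage hV e.continuous, hxV, ?_⟩
    intro y hy
    have := hVU hy
    simpa using this
  · intro X _ n e he hX
    classical
    have hm : TopologicalSpace.MetrizableSpace X := he.metrizableSpace
    obtain ⟨f, hf⟩ := exists_surjective_nat (Finset (Fin n) × (Fin n → ℚ))
    let Z : Finset (Fin n) × (Fin n → ℚ) → Set X := fun p =>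
      {x | ∀ i, (i ∈ p.1 → e x i = p.2 i) ∧ (i ∉ p.1 → Irrational (e x i))}
    refine key X hX (fun k => Z (f k)) (fun k => ?_) ?_
    · let Q : Fin n → Set ℝ := fun i =>
        if i ∈ (f k).1 then {((f k).2 i : ℝ)}ᶜ else Set.range ((↑) : ℚ → ℝ)
      refine zeroDimensional_of_dense (he.comp Topology.IsEmbedding.subtypeVal) Q ?_ ?_
      · intro i
        by_cases hi : i ∈ (f k).1
        · simp only [Q, if_pos hi]
          exact dense_compl_singleton _
        · simp only [Q, if_neg hi]
          exact Rat.denseRange_cast
      · intro x i
        by_cases hi : i ∈ (f k).1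
        · simp only [Q, if_pos hi, Set.mem_compl_iff, Set.mem_singleton_iff, not_not]
          exact (x.2 i).1 hi
        · simp only [Q, if_neg hi]
          exact (x.2 i).2 hi
    · apply Set.eq_univ_of_forall
      intro x
      have h1 : ∀ i, ∃ q : ℚ, ¬ Irrational (e x i) → e x i = q := by
        intro i
        by_cases h : Irrational (e x i)
        · exact ⟨0, fun h' => absurd h h'⟩
        · rw [Irrational, not_not] at h
          obtain ⟨q, hq⟩ := h
          exact ⟨q, fun _ => hq.symm⟩
      choose q hq using h1
      obtain ⟨k, hk⟩ := hf (Finset.univ.filter fun i => ¬ Irrational (e x i), q)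
      refine Set.mem_iUnion.2 ⟨k, ?_⟩
      rw [hk]
      intro i
      simp only [Finset.mem_filter, Finset.mem_univ, true_and, not_not]
      exact ⟨hq i, id⟩

end Pool.Agent.Results.MP_1f1ec9_gt.ZeroDimensional
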